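import Pool.Agent.Helper27.PHU.Defs

/-!
# MP_8bf717_co, upper bound: lower bound for the area of a framed body (PHU-5)
-/

set_option autoImplicit false

open MeasureTheory Set

namespace Pool.Agent.Helper23.PHU

open Pool.Agent.Helper27.PHU Pool.Agent.Helper37.PH Pool.Agent.Helper61.PH

theorem conv_comb {C : Set (ℝ × ℝ)} (hC : Convex ℝ C) {p q : ℝ × ℝ} (hp : p ∈ C) (hq : q ∈ C)
    {t : ℝ} (h0 : 0 ≤ t) (h1 : t ≤ 1) :
    ((1 - t) * p.1 + t * q.1, (1 - t) * p.2 + t * q.2) ∈ C := by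
  exact hC hp hq (sub_nonneg.mpr h1) h0 (by ring)

/-- a trapezoid with vertical sides -/
theorem trap {C : Set (ℝ × ℝ)} (hC : Convex ℝ C) {p q u u' v v' : ℝ} (hpq : p ≤ q)
    (h1 : (p, u) ∈ C) (h2 : (p, u') ∈ C)
    (h3 : (q, v) ∈ C) (h4 : (q, v') ∈ C) :
    ENNReal.ofReal ((q - p) * ((u' - u) + (v' - v)) / 2) ≤
      volume (C ∩ {z : ℝ × ℝ | p < z.1 ∧ z.1 < q}) := by
  rcases hpq.eq_or_lt with rfl | hpq
  · simp
  have hd : 0 < q - p := by linarith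
  have key := Pool.Agent.Helper88.PH.vol_le
    (f := fun x => u + (v - u) / (q - p) * (x - p))
    (g := fun x => u' + (v' - u') / (q - p) * (x - p)) (by fun_prop) (by fun_prop)
    hpq.le (R := C ∩ {z : ℝ × ℝ | p < z.1 ∧ z.1 < q}) ?_
  · refine le_trans (le_of_eq ?_) key
    congr 1
    have e : ∀ x : ℝ, (u' + (v' - u') / (q - p) * (x - p) - (u + (v - u) / (q - p) * (x - p)))
        = (u' - u) + ((v' - u') / (q - p) - (v - u) / (q - p)) * (x - p) := by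
      intro x; ring
    simp only [e]
    rw [intervalIntegral.integral_add, intervalIntegral.integral_const,
      intervalIntegral.integral_const_mul, intervalIntegral.integral_sub, integral_id,
      intervalIntegral.integral_const]
    · simp only [smul_eq_mul]
      field_simp
      ring
    · exact Continuous.intervalIntegrable continuous_id _ _
    · exact intervalIntegrable_const
    · exact intervalIntegrable_const
    · apply Continuous.intervalIntegrable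
      fun_prop
  · rintro ⟨x, y⟩ hx1 hx2 hy1 hy2
    simp only at hx1 hx2 hy1 hy2
    refine ⟨?_, hx1, hx2⟩
    set t := (x - p) / (q - p) with ht
    have ht0 : 0 ≤ t := div_nonneg (by linarith) hd.le
    have ht1 : t ≤ 1 := (div_le_one hd).mpr (by linarith)
    have a1 := conv_comb hC h1 h3 ht0 ht1
    have a2 := conv_comb hC h2 h4 ht0 ht1
    simp only at a1 a2
    have ex : (1 - t) * p + t * q = x := by
      rw [ht]; field_simp; ring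
    rw [ex] at a1 a2
    have b1 : (1 - t) * u + t * v < y := by
      have : (1 - t) * u + t * v = u + (v - u) / (q - p) * (x - p) := by
        rw [ht]; field_simp; ring
      rw [this]; exact hy1
    have b2 : y < (1 - t) * u' + t * v' := by
      have : (1 - t) * u' + t * v' = u' + (v' - u') / (q - p) * (x - p) := by
        rw [ht]; field_simp; ring
      rw [this]; exact hy2
    set Y1 := (1 - t) * u + t * v
    set Y2 := (1 - t) * u' + t * v'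
    have hY : 0 < Y2 - Y1 := by linarith
    have hs0 : 0 ≤ (y - Y1) / (Y2 - Y1) := div_nonneg (by linarith) hY.le
    have hs1 : (y - Y1) / (Y2 - Y1) ≤ 1 := (div_le_one hY).mpr (by linarith)
    have a3 := conv_comb hC a1 a2 hs0 hs1
    simp only at a3
    have e1 : (1 - (y - Y1) / (Y2 - Y1)) * x + (y - Y1) / (Y2 - Y1) * x = x := by ring
    have e2 : (1 - (y - Y1) / (Y2 - Y1)) * Y1 + (y - Y1) / (Y2 - Y1) * Y2 = y := by
      field_simp; ring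
    rw [e1, e2] at a3
    exact a3

theorem split_x (S : Set (ℝ × ℝ)) {p q r : ℝ} (hpq : p ≤ q) (hqr : q ≤ r) :
    volume (S ∩ {z : ℝ × ℝ | p < z.1 ∧ z.1 < q}) + volume (S ∩ {z : ℝ × ℝ | q < z.1 ∧ z.1 < r})
      ≤ volume (S ∩ {z : ℝ × ℝ | p < z.1 ∧ z.1 < r}) := by
  have hm : MeasurableSet {z : ℝ × ℝ | z.1 < q} := measurableSet_lt measurable_fst measurable_const
  rw [← measure_inter_add_sdiff (S ∩ {z : ℝ × ℝ | p < z.1 ∧ z.1 < r}) hm]
  apply add_le_add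
  · apply measure_mono
    rintro z ⟨h1, h2, h3⟩
    exact ⟨⟨h1, h2, lt_of_lt_of_le h3 hqr⟩, h3⟩
  · apply measure_mono
    rintro z ⟨h1, h2, h3⟩
    exact ⟨⟨h1, lt_of_le_of_lt hpq h2, h3⟩, fun h4 => lt_asymm h2 h4⟩

theorem vol_line (c : ℝ) : volume {z : ℝ × ℝ | z.2 = c} = 0 := by
  have e : {z : ℝ × ℝ | z.2 = c} = (univ : Set ℝ) ×ˢ ({c} : Set ℝ) := by
    ext z; simp
  rw [e, Measure.volume_eq_prod, Measure.prod_prod]
  simp

theorem split_y (S : Set (ℝ × ℝ)) (c : ℝ) :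
    volume (S ∩ {z : ℝ × ℝ | z.2 ≤ c}) + volume (S ∩ {z : ℝ × ℝ | c ≤ z.2}) ≤ volume S := by
  have hm : MeasurableSet {z : ℝ × ℝ | z.2 ≤ c} := measurableSet_le measurable_snd measurable_const
  rw [← measure_inter_add_sdiff S hm]
  apply add_le_add le_rfl
  have h1 : S ∩ {z : ℝ × ℝ | c ≤ z.2} ⊆ (S \ {z : ℝ × ℝ | z.2 ≤ c}) ∪ {z : ℝ × ℝ | z.2 = c} := by
    rintro z ⟨h1, h2⟩
    have h2' : c ≤ z.2 := h2
    rcases h2'.eq_or_lt with h | h
    · right; exact h.symm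
    · left; exact ⟨h1, fun h3 => absurd (h3 : z.2 ≤ c) (not_le.mpr h)⟩
  refine (measure_mono h1).trans ((measure_union_le _ _).trans ?_)
  rw [vol_line, add_zero]

/-- four consecutive strips -/
theorem four {S : Set (ℝ × ℝ)} {p1 p2 p3 : ℝ} (h1 : 0 ≤ p1) (h2 : p1 ≤ p2) (h3 : p2 ≤ p3)
    (h4 : p3 ≤ 1) {w1 w2 w3 w4 : ℝ} (k1 : 0 ≤ w1) (k2 : 0 ≤ w2) (k3 : 0 ≤ w3) (k4 : 0 ≤ w4)
    (g1 : ENNReal.ofReal w1 ≤ volume (S ∩ {z : ℝ × ℝ | 0 < z.1 ∧ z.1 < p1}))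
    (g2 : ENNReal.ofReal w2 ≤ volume (S ∩ {z : ℝ × ℝ | p1 < z.1 ∧ z.1 < p2}))
    (g3 : ENNReal.ofReal w3 ≤ volume (S ∩ {z : ℝ × ℝ | p2 < z.1 ∧ z.1 < p3}))
    (g4 : ENNReal.ofReal w4 ≤ volume (S ∩ {z : ℝ × ℝ | p3 < z.1 ∧ z.1 < 1})) :
    ENNReal.ofReal (w1 + w2 + w3 + w4) ≤ volume (S ∩ {z : ℝ × ℝ | 0 < z.1 ∧ z.1 < 1}) := by
  rw [ENNReal.ofReal_add (by positivity) k4, ENNReal.ofReal_add (by positivity) k3,
    ENNReal.ofReal_add k1 k2]
  have s1 := split_x S h1 h2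
  have s2 := split_x S (h1.trans h2) h3
  have s3 := split_x S ((h1.trans h2).trans h3) h4
  calc _ ≤ volume (S ∩ {z : ℝ × ℝ | 0 < z.1 ∧ z.1 < p1}) +
        volume (S ∩ {z : ℝ × ℝ | p1 < z.1 ∧ z.1 < p2}) +
        volume (S ∩ {z : ℝ × ℝ | p2 < z.1 ∧ z.1 < p3}) +
        volume (S ∩ {z : ℝ × ℝ | p3 < z.1 ∧ z.1 < 1}) := by gcongr
    _ ≤ volume (S ∩ {z : ℝ × ℝ | 0 < z.1 ∧ z.1 < p2}) +
        volume (S ∩ {z : ℝ × ℝ | p2 < z.1 ∧ z.1 < p3}) +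
        volume (S ∩ {z : ℝ × ℝ | p3 < z.1 ∧ z.1 < 1}) := by gcongr
    _ ≤ volume (S ∩ {z : ℝ × ℝ | 0 < z.1 ∧ z.1 < p3}) +
        volume (S ∩ {z : ℝ × ℝ | p3 < z.1 ∧ z.1 < 1}) := by gcongr
    _ ≤ _ := s3

/-- the cap over the segment from `(0, s)` to `(1, s)` -/
theorem cap {C : Set (ℝ × ℝ)} (hC : Convex ℝ C) {s c h m e m' f : ℝ} (hc0 : 0 < c) (hc1 : c < 1)
    (hh : 0 ≤ h) (hm0 : 0 ≤ m) (hm1 : m ≤ c) (hm0' : c ≤ m') (hm1' : m' ≤ 1)
    (he : 0 ≤ e) (hf : 0 ≤ f) (p0 : ((0 : ℝ), s) ∈ C) (p1 : ((1 : ℝ), s) ∈ C)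
    (pc : (c, s + h) ∈ C) (pm : (m, s + h * (m / c) + e) ∈ C)
    (pm' : (m', s + h * ((1 - m') / (1 - c)) + f) ∈ C) :
    ENNReal.ofReal (h / 2 + (c * e / 2 + (1 - c) * f / 2)) ≤
      volume (C ∩ {z : ℝ × ℝ | 0 < z.1 ∧ z.1 < 1}) := by
  have base : ∀ x : ℝ, 0 ≤ x → x ≤ 1 → (x, s) ∈ C := by
    intro x h0 h1
    have := conv_comb hC p0 p1 h0 h1
    simp only at this
    convert this using 2 <;> ring
  have hc1' : 0 < 1 - c := by linarith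
  have g1 := trap hC hm0 p0 p0 (base m hm0 (by linarith)) pm
  have g2 := trap hC hm1 (base m hm0 (by linarith)) pm (base c hc0.le hc1.le) pc
  have g3 := trap hC hm0' (base c hc0.le hc1.le) pc (base m' (by linarith) hm1') pm'
  have g4 := trap hC hm1' (base m' (by linarith) hm1') pm' p1 p1
  have e1 : 0 ≤ m / c := div_nonneg hm0 hc0.le
  have e2 : 0 ≤ (1 - m') / (1 - c) := div_nonneg (by linarith) hc1'.le
  have q1 : 0 ≤ h * (m / c) := mul_nonneg hh e1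
  have q2 : 0 ≤ h * ((1 - m') / (1 - c)) := mul_nonneg hh e2
  have key := four hm0 hm1 hm0' hm1' ?_ ?_ ?_ ?_ g1 g2 g3 g4
  · refine le_trans (ENNReal.ofReal_le_ofReal (le_of_eq ?_)) key
    have r1 : m / c * c = m := div_mul_cancel₀ _ hc0.ne'
    have r2 : (1 - m') / (1 - c) * (1 - c) = 1 - m' := div_mul_cancel₀ _ hc1'.ne'
    have r3 : h * (m / c) * c = h * m := by rw [mul_assoc, r1]
    have r4 : h * ((1 - m') / (1 - c)) * (1 - c) = h * (1 - m') := by rw [mul_assoc, r2]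
    linear_combination -r3 / 2 - r4 / 2
  · apply div_nonneg _ (by norm_num)
    apply mul_nonneg <;> linarith
  · apply div_nonneg _ (by norm_num)
    apply mul_nonneg <;> linarith
  · apply div_nonneg _ (by norm_num)
    apply mul_nonneg <;> linarith
  · apply div_nonneg _ (by norm_num)
    apply mul_nonneg <;> linarith

/-- the cup under the segment from `(0, s)` to `(1, s)` -/
theorem cup {C : Set (ℝ × ℝ)} (hC : Convex ℝ C) {s c h m e m' f : ℝ} (hc0 : 0 < c) (hc1 : c < 1)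
    (hh : 0 ≤ h) (hm0 : 0 ≤ m) (hm1 : m ≤ c) (hm0' : c ≤ m') (hm1' : m' ≤ 1)
    (he : 0 ≤ e) (hf : 0 ≤ f) (p0 : ((0 : ℝ), s) ∈ C) (p1 : ((1 : ℝ), s) ∈ C)
    (pc : (c, s - h) ∈ C) (pm : (m, s - h * (m / c) - e) ∈ C)
    (pm' : (m', s - h * ((1 - m') / (1 - c)) - f) ∈ C) :
    ENNReal.ofReal (h / 2 + (c * e / 2 + (1 - c) * f / 2)) ≤
      volume (C ∩ {z : ℝ × ℝ | 0 < z.1 ∧ z.1 < 1}) := by
  have base : ∀ x : ℝ, 0 ≤ x → x ≤ 1 → (x, s) ∈ C := by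
    intro x h0 h1
    have := conv_comb hC p0 p1 h0 h1
    simp only at this
    convert this using 2 <;> ring
  have hc1' : 0 < 1 - c := by linarith
  have g1 := trap hC hm0 p0 p0 pm (base m hm0 (by linarith))
  have g2 := trap hC hm1 pm (base m hm0 (by linarith)) pc (base c hc0.le hc1.le)
  have g3 := trap hC hm0' pc (base c hc0.le hc1.le) pm' (base m' (by linarith) hm1')
  have g4 := trap hC hm1' pm' (base m' (by linarith) hm1') p1 p1
  have e1 : 0 ≤ m / c := div_nonneg hm0 hc0.le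
  have e2 : 0 ≤ (1 - m') / (1 - c) := div_nonneg (by linarith) hc1'.le
  have q1 : 0 ≤ h * (m / c) := mul_nonneg hh e1
  have q2 : 0 ≤ h * ((1 - m') / (1 - c)) := mul_nonneg hh e2
  have key := four hm0 hm1 hm0' hm1' ?_ ?_ ?_ ?_ g1 g2 g3 g4
  · refine le_trans (ENNReal.ofReal_le_ofReal (le_of_eq ?_)) key
    have r1 : m / c * c = m := div_mul_cancel₀ _ hc0.ne'
    have r2 : (1 - m') / (1 - c) * (1 - c) = 1 - m' := div_mul_cancel₀ _ hc1'.ne'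
    have r3 : h * (m / c) * c = h * m := by rw [mul_assoc, r1]
    have r4 : h * ((1 - m') / (1 - c)) * (1 - c) = h * (1 - m') := by rw [mul_assoc, r2]
    linear_combination -r3 / 2 - r4 / 2
  · apply div_nonneg _ (by norm_num)
    apply mul_nonneg <;> linarith
  · apply div_nonneg _ (by norm_num)
    apply mul_nonneg <;> linarith
  · apply div_nonneg _ (by norm_num)
    apply mul_nonneg <;> linarith
  · apply div_nonneg _ (by norm_num)
    apply mul_nonneg <;> linarith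

theorem area_ge {K : Set (ℝ × ℝ)} {b c1 c2 r1 r2 l1 l2 lam rho e1 f1 e2 f2 : ℝ}
    (h : Frame K b c1 c2 r1 r2 l1 l2) (hf : Feat K b c1 c2 lam rho e1 f1 e2 f2) :
    3 / 4 + (c1 * e1 / 2 + (1 - c1) * f1 / 2) + (c2 * e2 / 2 + (1 - c2) * f2 / 2)
      + (lam + rho) / 4 ≤ (volume K).toReal := by
  have hfin : volume K ≠ ⊤ := h.body.compact.measure_lt_top.ne
  rw [← ENNReal.ofReal_le_iff_le_toReal hfin]
  have hconv := h.body.convex
  have hb0 := h.b0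
  have hb1 := h.b1
  have hlam := hf.lam0
  have hrho := hf.rho0
  obtain ⟨yl, hyl⟩ := hf.xl
  obtain ⟨yr, hyr⟩ := hf.xr
  obtain ⟨m1, hm10, hm11, hm1⟩ := hf.xtl
  obtain ⟨m2, hm20, hm21, hm2⟩ := hf.xtr
  obtain ⟨n1, hn10, hn11, hn1⟩ := hf.xbl
  obtain ⟨n2, hn20, hn21, hn2⟩ := hf.xbr
  have hc10 := h.c10
  have hc11 := h.c11
  have hc20 := h.c20
  have hc21 := h.c21
  -- the sides
  have gl := trap hconv (p := -lam) (q := 0) (by linarith) hyl hyl h.mA h.mB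
  have gr := trap hconv (p := 1) (q := 1 + rho) (by linarith) h.mD h.mC hyr hyr
  -- the three parts of the middle strip
  set S := K ∩ {z : ℝ × ℝ | 0 < z.1 ∧ z.1 < 1} with hS
  have convge : ∀ s : ℝ, Convex ℝ {z : ℝ × ℝ | s ≤ z.2} := by
    intro s u hu v hv a b' ha hb' hab
    have hu : s ≤ u.2 := hu
    have hv : s ≤ v.2 := hv
    show s ≤ a * u.2 + b' * v.2
    have t1 := mul_le_mul_of_nonneg_left hu ha
    have t2 := mul_le_mul_of_nonneg_left hv hb'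
    have t3 : s = a * s + b' * s := by rw [← add_mul, hab, one_mul]
    linarith
  have convle : ∀ s : ℝ, Convex ℝ {z : ℝ × ℝ | z.2 ≤ s} := by
    intro s u hu v hv a b' ha hb' hab
    have hu : u.2 ≤ s := hu
    have hv : v.2 ≤ s := hv
    show a * u.2 + b' * v.2 ≤ s
    have t1 := mul_le_mul_of_nonneg_left hu ha
    have t2 := mul_le_mul_of_nonneg_left hv hb'
    have t3 : s = a * s + b' * s := by rw [← add_mul, hab, one_mul]
    linarith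
  have d1 : 0 ≤ (1 / 2 - b) * (m1 / c1) :=
    mul_nonneg (by linarith) (div_nonneg hm10 hc10.le)
  have d2 : 0 ≤ (1 / 2 - b) * ((1 - m2) / (1 - c1)) :=
    mul_nonneg (by linarith) (div_nonneg (by linarith) (by linarith))
  have d3 : 0 ≤ b * (n1 / c2) := mul_nonneg hb0.le (div_nonneg hn10 hc20.le)
  have d4 : 0 ≤ b * ((1 - n2) / (1 - c2)) :=
    mul_nonneg hb0.le (div_nonneg (by linarith) (by linarith))
  have f10 := hf.e10
  have f20 := hf.f10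
  have f30 := hf.e20
  have f40 := hf.f20
  have gt := cap (C := K ∩ {z : ℝ × ℝ | b + 1 / 2 ≤ z.2}) (hconv.inter (convge _))
    (s := b + 1 / 2) (c := c1) (h := 1 / 2 - b) (m := m1) (e := e1) (m' := m2) (f := f1)
    hc10 hc11 (by linarith) hm10 hm11 hm20 hm21 f10 f20
    ⟨h.mB, le_refl (b + 1 / 2)⟩ ⟨h.mC, le_refl (b + 1 / 2)⟩ ⟨by
      have := h.mT
      have e : b + 1 / 2 + (1 / 2 - b) = 1 := by ring
      rw [e]; exact this, by show b + 1 / 2 ≤ _; simp only; linarith⟩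
    ⟨hm1, by show b + 1 / 2 ≤ _; simp only; linarith⟩
    ⟨hm2, by show b + 1 / 2 ≤ _; simp only; linarith⟩
  have gb := cup (C := K ∩ {z : ℝ × ℝ | z.2 ≤ b}) (hconv.inter (convle _))
    (s := b) (c := c2) (h := b) (m := n1) (e := e2) (m' := n2) (f := f2)
    hc20 hc21 hb0.le hn10 hn11 hn20 hn21 f30 f40
    ⟨h.mA, le_refl b⟩ ⟨h.mD, le_refl b⟩ ⟨by
      have := h.mU
      rw [sub_self]; exact this, by show _ ≤ b; simp only; linarith⟩
    ⟨hn1, by show _ ≤ b; simp only; linarith⟩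
    ⟨hn2, by show _ ≤ b; simp only; linarith⟩
  have gm := trap (C := (K ∩ {z : ℝ × ℝ | b ≤ z.2}) ∩ {z : ℝ × ℝ | z.2 ≤ b + 1 / 2})
    ((hconv.inter (convge _)).inter (convle _)) (p := 0) (q := 1) (u := b) (u' := b + 1 / 2)
    (v := b) (v' := b + 1 / 2) zero_le_one
    ⟨⟨h.mA, le_refl b⟩, by show b ≤ b + 1 / 2; linarith⟩
    ⟨⟨h.mB, by show b ≤ b + 1 / 2; linarith⟩, le_refl (b + 1 / 2)⟩
    ⟨⟨h.mD, le_refl b⟩, by show b ≤ b + 1 / 2; linarith⟩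
    ⟨⟨h.mC, by show b ≤ b + 1 / 2; linarith⟩, le_refl (b + 1 / 2)⟩
  have s1 := split_x K (p := -lam) (q := 0) (r := 1) (by linarith) zero_le_one
  have s2 := split_x K (p := -lam) (q := 1) (r := 1 + rho) (by linarith) (by linarith)
  have s3 := split_y S b
  have s4 := split_y (S ∩ {z : ℝ × ℝ | b ≤ z.2}) (b + 1 / 2)
  have i1 : (K ∩ {z : ℝ × ℝ | b + 1 / 2 ≤ z.2}) ∩ {z : ℝ × ℝ | 0 < z.1 ∧ z.1 < 1} ⊆
      (S ∩ {z : ℝ × ℝ | b ≤ z.2}) ∩ {z : ℝ × ℝ | b + 1 / 2 ≤ z.2} := by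
    rintro z ⟨⟨k1, k2⟩, k3⟩
    have k2' : b + 1 / 2 ≤ z.2 := k2
    exact ⟨⟨⟨k1, k3⟩, by show b ≤ z.2; linarith⟩, k2⟩
  have i2 : (K ∩ {z : ℝ × ℝ | z.2 ≤ b}) ∩ {z : ℝ × ℝ | 0 < z.1 ∧ z.1 < 1} ⊆
      S ∩ {z : ℝ × ℝ | z.2 ≤ b} := by
    rintro z ⟨⟨k1, k2⟩, k3⟩
    exact ⟨⟨k1, k3⟩, k2⟩
  have i3 : ((K ∩ {z : ℝ × ℝ | b ≤ z.2}) ∩ {z : ℝ × ℝ | z.2 ≤ b + 1 / 2}) ∩
      {z : ℝ × ℝ | 0 < z.1 ∧ z.1 < 1} ⊆
      (S ∩ {z : ℝ × ℝ | b ≤ z.2}) ∩ {z : ℝ × ℝ | z.2 ≤ b + 1 / 2} := by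
    rintro z ⟨⟨⟨k1, k2⟩, k3⟩, k4⟩
    exact ⟨⟨⟨k1, k4⟩, k2⟩, k3⟩
  have t1 := gt.trans (measure_mono i1)
  have t2 := gb.trans (measure_mono i2)
  have t3 := gm.trans (measure_mono i3)
  have hc1' : 0 ≤ 1 - c1 := by linarith
  have hc2' : 0 ≤ 1 - c2 := by linarith
  have hb1' : 0 ≤ 1 / 2 - b := by linarith
  have n0 : 0 ≤ c1 * e1 / 2 + (1 - c1) * f1 / 2 := by positivity
  have n1' : 0 ≤ c2 * e2 / 2 + (1 - c2) * f2 / 2 := by positivity
  have tot : ENNReal.ofReal (lam / 4) + ENNReal.ofReal (b / 2 + (c2 * e2 / 2 + (1 - c2) * f2 / 2))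
      + ENNReal.ofReal (1 / 2) +
      ENNReal.ofReal ((1 / 2 - b) / 2 + (c1 * e1 / 2 + (1 - c1) * f1 / 2))
      + ENNReal.ofReal (rho / 4) ≤ volume K := by
    have q1 : ENNReal.ofReal (lam / 4) ≤ volume (K ∩ {z : ℝ × ℝ | -lam < z.1 ∧ z.1 < 0}) := by
      refine le_trans (ENNReal.ofReal_le_ofReal (le_of_eq ?_)) gl
      ring
    have q2 : ENNReal.ofReal (rho / 4) ≤
        volume (K ∩ {z : ℝ × ℝ | 1 < z.1 ∧ z.1 < 1 + rho}) := by
      refine le_trans (ENNReal.ofReal_le_ofReal (le_of_eq ?_)) gr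
      ring
    have q3 : ENNReal.ofReal (1 / 2) ≤
        volume ((S ∩ {z : ℝ × ℝ | b ≤ z.2}) ∩ {z : ℝ × ℝ | z.2 ≤ b + 1 / 2}) := by
      refine le_trans (ENNReal.ofReal_le_ofReal (le_of_eq ?_)) t3
      ring
    calc _ ≤ volume (K ∩ {z : ℝ × ℝ | -lam < z.1 ∧ z.1 < 0}) +
          volume (S ∩ {z : ℝ × ℝ | z.2 ≤ b}) +
          volume ((S ∩ {z : ℝ × ℝ | b ≤ z.2}) ∩ {z : ℝ × ℝ | z.2 ≤ b + 1 / 2}) +
          volume ((S ∩ {z : ℝ × ℝ | b ≤ z.2}) ∩ {z : ℝ × ℝ | b + 1 / 2 ≤ z.2}) +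
          volume (K ∩ {z : ℝ × ℝ | 1 < z.1 ∧ z.1 < 1 + rho}) := by gcongr
      _ = volume (K ∩ {z : ℝ × ℝ | -lam < z.1 ∧ z.1 < 0}) +
          (volume (S ∩ {z : ℝ × ℝ | z.2 ≤ b}) +
          (volume ((S ∩ {z : ℝ × ℝ | b ≤ z.2}) ∩ {z : ℝ × ℝ | z.2 ≤ b + 1 / 2}) +
          volume ((S ∩ {z : ℝ × ℝ | b ≤ z.2}) ∩ {z : ℝ × ℝ | b + 1 / 2 ≤ z.2}))) +
          volume (K ∩ {z : ℝ × ℝ | 1 < z.1 ∧ z.1 < 1 + rho}) := by ring
      _ ≤ volume (K ∩ {z : ℝ × ℝ | -lam < z.1 ∧ z.1 < 0}) +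
          (volume (S ∩ {z : ℝ × ℝ | z.2 ≤ b}) + volume (S ∩ {z : ℝ × ℝ | b ≤ z.2})) +
          volume (K ∩ {z : ℝ × ℝ | 1 < z.1 ∧ z.1 < 1 + rho}) := by gcongr
      _ ≤ volume (K ∩ {z : ℝ × ℝ | -lam < z.1 ∧ z.1 < 0}) + volume S +
          volume (K ∩ {z : ℝ × ℝ | 1 < z.1 ∧ z.1 < 1 + rho}) := by gcongr
      _ ≤ volume (K ∩ {z : ℝ × ℝ | -lam < z.1 ∧ z.1 < 1}) +
          volume (K ∩ {z : ℝ × ℝ | 1 < z.1 ∧ z.1 < 1 + rho}) := by gcongr
      _ ≤ volume (K ∩ {z : ℝ × ℝ | -lam < z.1 ∧ z.1 < 1 + rho}) := s2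
      _ ≤ volume K := measure_mono inter_subset_left
  rw [← ENNReal.ofReal_add (by positivity) (by positivity),
    ← ENNReal.ofReal_add (by positivity) (by positivity),
    ← ENNReal.ofReal_add (by positivity) (by positivity),
    ← ENNReal.ofReal_add (by positivity) (by positivity)] at tot
  refine le_trans (ENNReal.ofReal_le_ofReal (le_of_eq ?_)) tot
  ring

end Pool.Agent.Helper23.PHU
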